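import Mathlib
import Pool.Agent.R105.KL.Main

/-!
# Linear codes are asymptotically as good as general codes for the `t`-th covering radius

The upper bound uses random parity check matrices and error patterns in which every nonzero column
occurs equally often (`Pool.Agent.R105.KL`), the lower bound is the sphere covering bound.
-/

set_option autoImplicit false

namespace Pool.Agent.Results.MP_5b687f_co.LinearEqualsGeneral

open Filter Topology Pool.Agent.R105.KL

/-- The `t`-weight of a `t × n` matrix: the number of nonzero columns. -/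
noncomputable def weight {F : Type} [Field F] {t n : ℕ} (v : Fin t → Fin n → F) : ℕ :=
  Set.ncard {j | ∃ i, v i j ≠ 0}

/-- The `t`-th covering radius of `C ⊆ F^n`: the maximum over all `t × n` matrices `u` of the minimum
of `weight (c - u)` over the `t × n` matrices `c` with all rows in `C`. -/
noncomputable def coveringRadius {F : Type} [Field F] {n : ℕ} (t : ℕ) (C : Set (Fin n → F)) : ℕ :=
  ⨆ u : Fin t → Fin n → F, ⨅ c : {c : Fin t → Fin n → F // ∀ i, c i ∈ C}, weight (c.1 - u)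

/-- `k_t(n, r, q)`: the least `log_q |C|` of a nonempty code `C ⊆ F^n` with `R_t(C) ≤ r`. -/
noncomputable def k (F : Type) [Field F] (t n : ℕ) (r : ℝ) : ℝ :=
  sInf {x | ∃ C : Set (Fin n → F), C.Nonempty ∧ (coveringRadius t C : ℝ) ≤ r ∧
    x = Real.logb (Nat.card F) (Nat.card C)}

/-- `k_t^Lin(n, r, q)`: the least `log_q |C|` of a linear code `C ⊆ F^n` with `R_t(C) ≤ r`. -/
noncomputable def kLin (F : Type) [Field F] (t n : ℕ) (r : ℝ) : ℝ :=
  sInf {x | ∃ C : Submodule F (Fin n → F), (coveringRadius t (C : Set (Fin n → F)) : ℝ) ≤ r ∧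
    x = Real.logb (Nat.card F) (Nat.card C)}

/-- `κ_t(ρ, q)` -/
noncomputable def kappa (F : Type) [Field F] (t : ℕ) (ρ : ℝ) : ℝ :=
  liminf (fun n : ℕ => k F t n (ρ * n) / n) atTop

/-- `κ_t^Lin(ρ, q)` -/
noncomputable def kappaLin (F : Type) [Field F] (t : ℕ) (ρ : ℝ) : ℝ :=
  liminf (fun n : ℕ => kLin F t n (ρ * n) / n) atTop

theorem weight_eq {F : Type} [Field F] [DecidableEq F] {t n : ℕ} (c u : Fin t → Fin n → F) :
    weight (c - u) = (Finset.univ.filter fun j => ∃ k, c k j ≠ u k j).card := by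
  unfold weight
  rw [Set.ncard_eq_toFinset_card']
  congr 1
  ext j
  simp [sub_eq_zero]

variable {F : Type} [Field F] [Fintype F]

theorem coveringRadius_le_iff [DecidableEq F] {t n r : ℕ} {C : Set (Fin n → F)}
    (hC : C.Nonempty) : coveringRadius t C ≤ r ↔ Cov t r C := by
  obtain ⟨c0, hc0⟩ := hC
  have : Nonempty {c : Fin t → Fin n → F // ∀ i, c i ∈ C} := ⟨⟨fun _ => c0, fun _ => hc0⟩⟩
  constructor
  · intro h u
    have h1 : (⨅ c : {c : Fin t → Fin n → F // ∀ i, c i ∈ C}, weight (c.1 - u)) ≤ r :=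
      le_trans (le_ciSup (f := fun u : Fin t → Fin n → F =>
        ⨅ c : {c : Fin t → Fin n → F // ∀ i, c i ∈ C}, weight (c.1 - u))
        (Set.finite_range _).bddAbove u) h
    obtain ⟨c, hc⟩ := Nat.sInf_mem (Set.range_nonempty
      fun c : {c : Fin t → Fin n → F // ∀ i, c i ∈ C} => weight (c.1 - u))
    refine ⟨c.1, c.2, ?_⟩
    rw [← weight_eq]
    exact le_trans (le_of_eq hc) h1
  · intro h
    refine ciSup_le fun u => ?_
    obtain ⟨c, hc, hw⟩ := h u
    rw [← weight_eq] at hw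
    exact le_trans (Nat.sInf_le ⟨⟨c, hc⟩, rfl⟩) hw

theorem coveringRadius_top (t n : ℕ) :
    coveringRadius t ((⊤ : Submodule F (Fin n → F)) : Set (Fin n → F)) = 0 := by
  classical
  rw [← Nat.le_zero, coveringRadius_le_iff (C := ((⊤ : Submodule F (Fin n → F)) : Set (Fin n → F)))
    ⟨0, trivial⟩]
  exact Cov.top

theorem one_lt_card : (1 : ℝ) < Nat.card F := by
  rw [Nat.card_eq_fintype_card]
  exact_mod_cast Fintype.one_lt_card

theorem logb_card_nonneg {n : ℕ} {C : Set (Fin n → F)} (hC : C.Nonempty) :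
    0 ≤ Real.logb (Nat.card F) (Nat.card C) := by
  have : Nonempty C := hC.to_subtype
  refine Real.logb_nonneg one_lt_card ?_
  exact_mod_cast Nat.card_pos

theorem k_bddBelow (t n : ℕ) (r : ℝ) : BddBelow {x | ∃ C : Set (Fin n → F), C.Nonempty ∧
    (coveringRadius t C : ℝ) ≤ r ∧ x = Real.logb (Nat.card F) (Nat.card C)} := by
  refine ⟨0, ?_⟩
  rintro x ⟨C, hC, -, rfl⟩
  exact logb_card_nonneg hC

theorem kLin_bddBelow (t n : ℕ) (r : ℝ) : BddBelow {x | ∃ C : Submodule F (Fin n → F),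
    (coveringRadius t (C : Set (Fin n → F)) : ℝ) ≤ r ∧
    x = Real.logb (Nat.card F) (Nat.card C)} := by
  refine ⟨0, ?_⟩
  rintro x ⟨C, -, rfl⟩
  exact logb_card_nonneg (C := (C : Set (Fin n → F))) ⟨0, C.zero_mem⟩

theorem kLin_nonempty (t n : ℕ) {r : ℝ} (hr : 0 ≤ r) :
    (n : ℝ) ∈ {x | ∃ C : Submodule F (Fin n → F),
    (coveringRadius t (C : Set (Fin n → F)) : ℝ) ≤ r ∧
    x = Real.logb (Nat.card F) (Nat.card C)} := by
  refine ⟨⊤, ?_, ?_⟩
  · rw [coveringRadius_top]
    simpa using hr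
  · have h1 := one_lt_card (F := F)
    rw [Module.natCard_eq_pow_finrank (K := F) (V := (⊤ : Submodule F (Fin n → F))), finrank_top,
      Module.finrank_fin_fun]
    push_cast
    rw [Real.logb_pow, Real.logb_self_eq_one h1, mul_one]

theorem k_le_kLin (t n : ℕ) {r : ℝ} (hr : 0 ≤ r) : k F t n r ≤ kLin F t n r := by
  refine csInf_le_csInf (k_bddBelow t n r) ⟨_, kLin_nonempty t n hr⟩ ?_
  rintro x ⟨C, h1, h2⟩
  exact ⟨C, ⟨0, C.zero_mem⟩, h1, h2⟩

theorem k_nonneg (t n : ℕ) (r : ℝ) : 0 ≤ k F t n r := by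
  refine Real.sInf_nonneg ?_
  rintro x ⟨C, hC, -, rfl⟩
  exact logb_card_nonneg hC

theorem kLin_le (t n : ℕ) {r : ℝ} (hr : 0 ≤ r) : kLin F t n r ≤ n :=
  csInf_le (kLin_bddBelow t n r) (kLin_nonempty t n hr)

/-- The size of a ball, as a real number. -/
noncomputable def ballLog [DecidableEq F] (t n r : ℕ) : ℝ :=
  Real.logb (Nat.card F) (Ball (Fin n) (Fin t → F) r).card

theorem ball_pos [DecidableEq F] (t n r : ℕ) : 0 < (Ball (Fin n) (Fin t → F) r).card := by
  rw [Finset.card_pos]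
  exact ⟨fun _ => 0, by simp [Ball]⟩

/-- Sphere covering bound. -/
theorem le_k [DecidableEq F] {t n : ℕ} {ρ : ℝ} (hρ : 0 ≤ ρ) :
    t * (n : ℝ) - ballLog (F := F) t n ⌊ρ * n⌋₊ ≤ t * k F t n (ρ * n) := by
  have hρn : 0 ≤ ρ * n := mul_nonneg hρ (Nat.cast_nonneg _)
  have hq := one_lt_card (F := F)
  have h1 : ∀ C : Set (Fin n → F), C.Nonempty → (coveringRadius t C : ℝ) ≤ ρ * n →
      t * (n : ℝ) - ballLog (F := F) t n ⌊ρ * n⌋₊ ≤ t * Real.logb (Nat.card F) (Nat.card C) := by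
    intro C hC hr
    have hcov : Cov t ⌊ρ * n⌋₊ C := by
      rw [← coveringRadius_le_iff hC]
      exact Nat.le_floor hr
    have h2 := sphere_covering hcov
    have hne : Nonempty C := hC.to_subtype
    have hCpos : (0 : ℝ) < Nat.card C := by exact_mod_cast Nat.card_pos
    have hBpos : (0 : ℝ) < (Ball (Fin n) (Fin t → F) ⌊ρ * n⌋₊).card := by
      exact_mod_cast ball_pos t n _
    have h3 : ((Nat.card F : ℝ)) ^ (t * n) ≤ (Nat.card C : ℝ) ^ t *
        (Ball (Fin n) (Fin t → F) ⌊ρ * n⌋₊).card := by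
      rw [Nat.card_eq_fintype_card (α := F)]
      exact_mod_cast h2
    have h4 := Real.logb_le_logb_of_le hq (by positivity) h3
    rw [Real.logb_mul (by positivity) (by positivity), Real.logb_pow, Real.logb_pow,
      Real.logb_self_eq_one hq, mul_one] at h4
    push_cast at h4
    rw [ballLog]
    linarith
  rcases Nat.eq_zero_or_pos t with rfl | ht
  · have := h1 ((⊤ : Submodule F (Fin n → F)) : Set (Fin n → F)) ⟨0, trivial⟩
      (by rw [coveringRadius_top]; simpa using hρn)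
    simpa using this
  · have ht' : (0 : ℝ) < t := by exact_mod_cast ht
    rw [← div_le_iff₀' ht']
    refine le_csInf ?_ ?_
    · obtain ⟨C, h2, h3⟩ := kLin_nonempty (F := F) t n hρn
      exact ⟨_, C, ⟨0, C.zero_mem⟩, h2, h3⟩
    · rintro x ⟨C, hC, hr, rfl⟩
      rw [div_le_iff₀' ht']
      exact h1 C hC hr

/-- Existence of good linear codes. -/
theorem kLin_upper [DecidableEq F] {t n M s : ℕ} {ρ : ℝ} (hρ : 0 ≤ ρ) (ht : 0 < t) (hM0 : 0 < M)
    (hn : M * t ≤ n)
    (hs : K F t ^ M * Fintype.card F ^ (t * n) < Fintype.card F ^ (s * M)) :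
    t * kLin F t n (ρ * n) ≤ t * (n : ℝ) - ballLog (F := F) t n ⌊ρ * n⌋₊ + t * (s + 1) +
      ((2 * Fintype.card (Fin t → F) + M * t : ℕ) : ℝ) * Real.logb (Nat.card F) (n + 1) := by
  have hq := one_lt_card (F := F)
  have ht' : (0 : ℝ) < t := by exact_mod_cast ht
  obtain ⟨C, hC1, hC2⟩ := exists_linear (r := ⌊ρ * n⌋₊) ht hM0 hn hs
  have hBpos : (0 : ℝ) < (Ball (Fin n) (Fin t → F) ⌊ρ * n⌋₊).card := by
    exact_mod_cast ball_pos t n _
  have hρn : 0 ≤ ρ * n := mul_nonneg hρ (Nat.cast_nonneg _)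
  have hle : kLin F t n (ρ * n) ≤ Module.finrank F C := by
    refine csInf_le (kLin_bddBelow t n _) ⟨C, ?_, ?_⟩
    · rw [← coveringRadius_le_iff ⟨0, C.zero_mem⟩] at hC1
      exact (Nat.le_floor_iff hρn).1 hC1
    · rw [Module.natCard_eq_pow_finrank (K := F) (V := C)]
      push_cast
      rw [Real.logb_pow, Real.logb_self_eq_one hq, mul_one]
  have h3 : ((Nat.card F : ℝ)) ^ (t * Module.finrank F C) *
      (Ball (Fin n) (Fin t → F) ⌊ρ * n⌋₊).card ≤
      ((Nat.card F : ℝ)) ^ (t * n + t * (s + 1)) *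
        ((n : ℝ) + 1) ^ (2 * Fintype.card (Fin t → F) + M * t) := by
    rw [Nat.card_eq_fintype_card (α := F)]
    exact_mod_cast hC2
  have h4 := Real.logb_le_logb_of_le hq (by positivity) h3
  rw [Real.logb_mul (by positivity) (by positivity), Real.logb_mul (by positivity) (by positivity),
    Real.logb_pow, Real.logb_pow, Real.logb_pow, Real.logb_self_eq_one hq, mul_one, mul_one] at h4
  have h5 : (t : ℝ) * kLin F t n (ρ * n) ≤ t * Module.finrank F C :=
    mul_le_mul_of_nonneg_left hle ht'.le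
  rw [ballLog]
  push_cast at h4 ⊢
  linarith

/-- The difference between linear and general codes is `o(n)`. -/
theorem diff_small {t : ℕ} (ht : 0 < t) {ρ : ℝ} (hρ : 0 ≤ ρ) {ε : ℝ} (hε : 0 < ε) :
    ∀ᶠ n : ℕ in atTop, kLin F t n (ρ * n) - k F t n (ρ * n) ≤ ε * n := by
  classical
  have hq := one_lt_card (F := F)
  have hq' : 1 < Fintype.card F := Fintype.one_lt_card
  have ht' : (0 : ℝ) < t := by exact_mod_cast ht
  set δ : ℝ := ε / 4 with hδ
  have hδ0 : 0 < δ := by positivity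
  obtain ⟨M, hM⟩ := exists_nat_gt ((t + 1 : ℝ) / δ)
  have hM0 : 0 < M := by
    have : (0 : ℝ) < M := lt_trans (by positivity) hM
    exact_mod_cast this
  have hMδ : (t + 1 : ℝ) < M * δ := by
    rwa [div_lt_iff₀ hδ0] at hM
  set D : ℕ := 2 * Fintype.card (Fin t → F) + M * t with hD
  have hlogq : 0 < Real.log (Nat.card F) := Real.log_pos hq
  -- the logarithm is small
  have hlog : ∀ᶠ n : ℕ in atTop, (D : ℝ) * Real.logb (Nat.card F) (n + 1) ≤ δ * (n + 1) := by
    have hc : 0 < δ * Real.log (Nat.card F) / (D + 1) := by positivity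
    have h1 := Real.isLittleO_log_id_atTop.def hc
    have h2 : Tendsto (fun n : ℕ => (n : ℝ) + 1) atTop atTop :=
      tendsto_atTop_add_const_right _ _ tendsto_natCast_atTop_atTop
    filter_upwards [h2.eventually h1] with n hn
    have hn0 : (0 : ℝ) ≤ n := Nat.cast_nonneg n
    rw [Real.norm_eq_abs, Real.norm_eq_abs, abs_of_nonneg (Real.log_nonneg (by linarith)), id,
      abs_of_nonneg (by linarith)] at hn
    rw [Real.logb, ← mul_div_assoc, div_le_iff₀ hlogq]
    calc (D : ℝ) * Real.log (n + 1)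
        ≤ D * (δ * Real.log (Nat.card F) / (D + 1) * (n + 1)) :=
          mul_le_mul_of_nonneg_left hn (Nat.cast_nonneg _)
      _ = (D / (D + 1)) * (δ * (n + 1) * Real.log (Nat.card F)) := by ring
      _ ≤ 1 * (δ * (n + 1) * Real.log (Nat.card F)) := by
          refine mul_le_mul_of_nonneg_right ?_ (by positivity)
          rw [div_le_one (by positivity)]
          linarith
      _ = δ * (n + 1) * Real.log (Nat.card F) := one_mul _
  -- the power of `q` dominates the constant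
  have hpow : ∀ᶠ n : ℕ in atTop, K F t ^ M < Fintype.card F ^ n :=
    (tendsto_pow_atTop_atTop_of_one_lt hq').eventually (eventually_gt_atTop _)
  have hbig : ∀ᶠ n : ℕ in atTop, 3 + δ ≤ δ * n := by
    have : Tendsto (fun n : ℕ => δ * (n : ℝ)) atTop atTop :=
      Tendsto.const_mul_atTop hδ0 tendsto_natCast_atTop_atTop
    exact this.eventually (eventually_ge_atTop _)
  filter_upwards [hlog, hpow, hbig, eventually_ge_atTop (M * t)] with n hn1 hn2 hn3 hn4
  set s := ⌈δ * n⌉₊ with hs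
  have hs1 : δ * n ≤ s := Nat.le_ceil _
  have hs2 : (s : ℝ) ≤ δ * n + 1 := (Nat.ceil_lt_add_one (by positivity)).le
  have hs3 : t * n + n ≤ s * M := by
    have h1 : ((t : ℝ) + 1) * n ≤ s * M := by
      calc ((t : ℝ) + 1) * n ≤ (M * δ) * n := mul_le_mul_of_nonneg_right hMδ.le (Nat.cast_nonneg _)
        _ = (δ * n) * M := by ring
        _ ≤ s * M := mul_le_mul_of_nonneg_right hs1 (Nat.cast_nonneg _)
    have h2 : ((t * n + n : ℕ) : ℝ) ≤ ((s * M : ℕ) : ℝ) := by
      push_cast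
      linarith
    exact_mod_cast h2
  have hs4 : K F t ^ M * Fintype.card F ^ (t * n) < Fintype.card F ^ (s * M) := by
    calc K F t ^ M * Fintype.card F ^ (t * n) < Fintype.card F ^ n * Fintype.card F ^ (t * n) :=
          Nat.mul_lt_mul_of_pos_right hn2 (pow_pos (by omega) _)
      _ = Fintype.card F ^ (t * n + n) := by rw [← pow_add, add_comm]
      _ ≤ _ := Nat.pow_le_pow_right (by omega) hs3
  have h1 := kLin_upper (F := F) hρ ht hM0 hn4 hs4
  have h2 := le_k (F := F) (t := t) (n := n) hρ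
  have h3 : t * (kLin F t n (ρ * n) - k F t n (ρ * n)) ≤ t * (s + 1) + δ * (n + 1) := by
    have : ((2 * Fintype.card (Fin t → F) + M * t : ℕ) : ℝ) * Real.logb (Nat.card F) (n + 1) ≤
      δ * (n + 1) := hn1
    linarith
  have h4 : (t : ℝ) * (s + 1) + δ * (n + 1) ≤ t * (ε * n) := by
    have ht1 : (1 : ℝ) ≤ t := by exact_mod_cast ht
    have h5 : (s : ℝ) + 1 + δ * (n + 1) ≤ ε * n := by
      have : ε = 4 * δ := by rw [hδ]; ring
      rw [this]
      nlinarith
    have h6 : δ * (n + 1) ≤ t * (δ * (n + 1)) :=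
      le_mul_of_one_le_left (by positivity) ht1
    calc (t : ℝ) * (s + 1) + δ * (n + 1) ≤ t * (s + 1) + t * (δ * (n + 1)) := by linarith
      _ = t * (s + 1 + δ * (n + 1)) := by ring
      _ ≤ t * (ε * n) := mul_le_mul_of_nonneg_left h5 ht'.le
  exact le_of_mul_le_mul_left (h3.trans h4) ht'

theorem diff_tendsto {t : ℕ} (ht : 0 < t) {ρ : ℝ} (hρ : 0 ≤ ρ) :
    Tendsto (fun n : ℕ => (kLin F t n (ρ * n) - k F t n (ρ * n)) / n) atTop (𝓝 0) := by
  rw [Metric.tendsto_nhds]
  intro ε hε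
  filter_upwards [diff_small (F := F) ht hρ (half_pos hε), eventually_gt_atTop 0] with n hn hn0
  have hn0' : (0 : ℝ) < n := by exact_mod_cast hn0
  have h1 : 0 ≤ kLin F t n (ρ * n) - k F t n (ρ * n) :=
    sub_nonneg.2 (k_le_kLin t n (mul_nonneg hρ hn0'.le))
  rw [Real.dist_eq, sub_zero, abs_of_nonneg (div_nonneg h1 hn0'.le), div_lt_iff₀ hn0']
  nlinarith

/-- For every finite field `F`, every `t ≥ 1` and every `ρ ∈ [0, 1]`, the optimal rates of general
and of linear codes for the `t`-th covering radius agree. -/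
theorem result (F : Type) [Field F] [Fintype F] (t : ℕ) (ht : 1 ≤ t) (ρ : ℝ) (h0 : 0 ≤ ρ)
    (_h1 : ρ ≤ 1) :
    kappa F t ρ = kappaLin F t ρ ∧
    Tendsto (fun n : ℕ => (kLin F t n (ρ * n) - k F t n (ρ * n)) / n) atTop (𝓝 0) := by
  have hd := diff_tendsto (F := F) ht h0
  refine ⟨?_, hd⟩
  have hρn : ∀ n : ℕ, 0 ≤ ρ * n := fun n => mul_nonneg h0 (Nat.cast_nonneg _)
  have hu0 : ∀ n : ℕ, 0 ≤ k F t n (ρ * n) / n := fun n =>
    div_nonneg (k_nonneg t n _) (Nat.cast_nonneg _)
  have huv : ∀ n : ℕ, k F t n (ρ * n) / n ≤ kLin F t n (ρ * n) / n := fun n =>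
    div_le_div_of_nonneg_right (k_le_kLin t n (hρn n)) (Nat.cast_nonneg _)
  have hv1 : ∀ n : ℕ, kLin F t n (ρ * n) / n ≤ 1 := fun n =>
    div_le_one_of_le₀ (kLin_le t n (hρn n)) (Nat.cast_nonneg _)
  have bu : IsBoundedUnder (· ≥ ·) atTop fun n : ℕ => k F t n (ρ * n) / n :=
    isBoundedUnder_of ⟨0, hu0⟩
  have bu' : IsBoundedUnder (· ≤ ·) atTop fun n : ℕ => k F t n (ρ * n) / n :=
    isBoundedUnder_of ⟨1, fun n => (huv n).trans (hv1 n)⟩
  have bv' : IsBoundedUnder (· ≤ ·) atTop fun n : ℕ => kLin F t n (ρ * n) / n :=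
    isBoundedUnder_of ⟨1, hv1⟩
  refine le_antisymm ?_ ?_
  · exact liminf_le_liminf (Eventually.of_forall huv) bu bv'.isCoboundedUnder_ge
  · have h2 := liminf_add_le (f := atTop)
      (u := fun n : ℕ => (kLin F t n (ρ * n) - k F t n (ρ * n)) / n)
      (v := fun n : ℕ => k F t n (ρ * n) / n) hd.isBoundedUnder_ge hd.isBoundedUnder_le bu
      bu'.isCoboundedUnder_ge
    rw [hd.limsup_eq, zero_add] at h2
    refine le_trans (le_of_eq ?_) h2
    unfold kappaLin
    congr 1
    funext n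
    simp only [Pi.add_apply]
    rw [← add_div]
    congr 1
    ring

end Pool.Agent.Results.MP_5b687f_co.LinearEqualsGeneral
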